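import Pool.Agent.Helper17.CT.Defs
import Pool.Agent.Helper66.CA.Intl

set_option autoImplicit false

/-!
Project Cantoni (MP_16e137_co): the flip and the deletion of an edge of a cubic map.

Notation: `e` a dart, `x1 = s e`, `x2 = s (s e)`, `e' = a e`, `y1 = s e'`, `y2 = s (s e')`.
-/

namespace Pool.Agent.Helper92.CA
open Pool.Agent.Helper17.CT Pool.Agent.Helper66.CA

variable {D : Type}

/-- The six darts at the two ends of the edge of `e`. -/
def Six (M : CMap D) (e d : D) : Prop :=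
  d = e ∨ d = M.s e ∨ d = M.s (M.s e) ∨ d = M.a e ∨ d = M.s (M.a e) ∨ d = M.s (M.s (M.a e))

/-- The edge of `e` can be flipped and deleted: its ends are different and the four other edges at
its ends lead to other vertices. -/
structure Gad (M : CMap D) (e : D) : Prop where
  n1 : M.a e ≠ M.s e
  n2 : M.a e ≠ M.s (M.s e)
  x1 : ¬ Six M e (M.a (M.s e))
  x2 : ¬ Six M e (M.a (M.s (M.s e)))
  y1 : ¬ Six M e (M.a (M.s (M.a e)))
  y2 : ¬ Six M e (M.a (M.s (M.s (M.a e))))

theorem s_inj (M : CMap D) {x y : D} (h : M.s x = M.s y) : x = y := by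
  rw [← M.s3 x, ← M.s3 y, h]

theorem a_inj (M : CMap D) {x y : D} (h : M.a x = M.a y) : x = y := by
  rw [← M.a2 x, ← M.a2 y, h]

theorem ss_ne (M : CMap D) (d : D) : M.s (M.s d) ≠ d := fun h =>
  M.s1 d (by conv_rhs => rw [← M.s3 d]; rw [h])

/-- The fifteen inequalities between the six darts. -/
structure Dist (M : CMap D) (e : D) : Prop where
  h01 : e ≠ M.s e
  h02 : e ≠ M.s (M.s e)
  h12 : M.s e ≠ M.s (M.s e)
  h34 : M.a e ≠ M.s (M.a e)
  h35 : M.a e ≠ M.s (M.s (M.a e))
  h45 : M.s (M.a e) ≠ M.s (M.s (M.a e))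
  h03 : e ≠ M.a e
  h04 : e ≠ M.s (M.a e)
  h05 : e ≠ M.s (M.s (M.a e))
  h13 : M.s e ≠ M.a e
  h14 : M.s e ≠ M.s (M.a e)
  h15 : M.s e ≠ M.s (M.s (M.a e))
  h23 : M.s (M.s e) ≠ M.a e
  h24 : M.s (M.s e) ≠ M.s (M.a e)
  h25 : M.s (M.s e) ≠ M.s (M.s (M.a e))

theorem Gad.dist {M : CMap D} {e : D} (g : Gad M e) : Dist M e where
  h01 := (M.s1 e).symm
  h02 := (ss_ne M e).symm
  h12 := (M.s1 (M.s e)).symm
  h34 := (M.s1 (M.a e)).symm
  h35 := (ss_ne M (M.a e)).symm
  h45 := (M.s1 (M.s (M.a e))).symm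
  h03 := (M.a1 e).symm
  h04 := fun h => g.n2 (by rw [← M.s3 (M.a e), ← h])
  h05 := fun h => g.n1 (by rw [← M.s3 (M.a e), ← h])
  h13 := g.n1.symm
  h14 := fun h => M.a1 e (s_inj M h).symm
  h15 := fun h => g.n2 (by rw [← M.s3 (M.a e), ← s_inj M h])
  h23 := g.n2.symm
  h24 := fun h => g.n1 (s_inj M h).symm
  h25 := fun h => M.a1 e (s_inj M (s_inj M h)).symm

open Classical in
/-- The rotation of the flipped map: `e → x2 → y1 → e`, `e' → y2 → x1 → e'`. -/
noncomputable def fs (M : CMap D) (e d : D) : D :=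
  if d = e then M.s (M.s e)
  else if d = M.s (M.s e) then M.s (M.a e)
  else if d = M.s (M.a e) then e
  else if d = M.a e then M.s (M.s (M.a e))
  else if d = M.s (M.s (M.a e)) then M.s e
  else if d = M.s e then M.a e
  else M.s d

section fs
variable {M : CMap D} {e : D} (g : Gad M e)

theorem fs_e (M : CMap D) (e : D) : fs M e e = M.s (M.s e) := by simp [fs]

include g

theorem fs_x2 : fs M e (M.s (M.s e)) = M.s (M.a e) := by
  have h := g.dist
  simp [fs, h.h02.symm]

theorem fs_y1 : fs M e (M.s (M.a e)) = e := by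
  have h := g.dist
  simp [fs, h.h04.symm, h.h24.symm]

theorem fs_e' : fs M e (M.a e) = M.s (M.s (M.a e)) := by
  have h := g.dist
  simp [fs, h.h03.symm, h.h23.symm, h.h34]

theorem fs_y2 : fs M e (M.s (M.s (M.a e))) = M.s e := by
  have h := g.dist
  simp [fs, h.h05.symm, h.h25.symm, h.h45.symm, h.h35.symm]

theorem fs_x1 : fs M e (M.s e) = M.a e := by
  have h := g.dist
  simp [fs, h.h01.symm, h.h12, h.h14, h.h13, h.h15]

omit g in
theorem fs_out {d : D} (hd : ¬ Six M e d) : fs M e d = M.s d := by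
  simp only [Six, not_or] at hd
  obtain ⟨h0, h1, h2, h3, h4, h5⟩ := hd
  simp [fs, h0, h1, h2, h3, h4, h5]

omit g in
theorem six_s {d : D} : Six M e (M.s d) ↔ Six M e d := by
  have key : ∀ z : D, Six M e z → Six M e (M.s z) := by
    rintro z (h | h | h | h | h | h) <;> subst h <;> simp [Six, M.s3]
  refine ⟨fun h => ?_, key d⟩
  have h2 := key _ (key _ h)
  rwa [M.s3] at h2

end fs

/-- The flipped map, on the same darts. -/
noncomputable def flip (M : CMap D) (e : D) (g : Gad M e) : CMap D where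
  s := fs M e
  a := M.a
  s3 := by
    intro d
    by_cases hd : Six M e d
    · rcases hd with h | h | h | h | h | h <;> subst h <;>
        simp only [fs_e, fs_x2 g, fs_y1 g, fs_e' g, fs_y2 g, fs_x1 g]
    · have h1 : ¬ Six M e (M.s d) := by rwa [six_s]
      have h2 : ¬ Six M e (M.s (M.s d)) := by rwa [six_s]
      rw [fs_out hd, fs_out h1, fs_out h2, M.s3]
  s1 := by
    intro d
    have h := g.dist
    by_cases hd : Six M e d
    · rcases hd with h' | h' | h' | h' | h' | h' <;> subst h'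
      · rw [fs_e]; exact h.h02.symm
      · rw [fs_x1 g]; exact h.h13.symm
      · rw [fs_x2 g]; exact h.h24.symm
      · rw [fs_e' g]; exact h.h35.symm
      · rw [fs_y1 g]; exact h.h04
      · rw [fs_y2 g]; exact h.h15
    · rw [fs_out hd]; exact M.s1 d
  a2 := M.a2
  a1 := M.a1

open Classical in
/-- The edge involution of the map after the deletion of the edge of `e`. -/
noncomputable def fa (M : CMap D) (e d : D) : D :=
  if d = M.a (M.s e) then M.a (M.s (M.s e))
  else if d = M.a (M.s (M.s e)) then M.a (M.s e)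
  else if d = M.a (M.s (M.a e)) then M.a (M.s (M.s (M.a e)))
  else if d = M.a (M.s (M.s (M.a e))) then M.a (M.s (M.a e))
  else M.a d

section fa
variable {M : CMap D} {e : D} (g : Gad M e)

theorem fa_x1 (M : CMap D) (e : D) : fa M e (M.a (M.s e)) = M.a (M.s (M.s e)) := by simp [fa]

theorem a_eq_iff {M : CMap D} {x y : D} : M.a x = M.a y ↔ x = y :=
  ⟨a_inj M, fun h => by rw [h]⟩

include g

theorem fa_x2 : fa M e (M.a (M.s (M.s e))) = M.a (M.s e) := by
  have h := g.dist
  simp [fa, a_eq_iff, h.h12.symm]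

theorem fa_y1 : fa M e (M.a (M.s (M.a e))) = M.a (M.s (M.s (M.a e))) := by
  have h := g.dist
  simp [fa, a_eq_iff, h.h14.symm, h.h24.symm]

theorem fa_y2 : fa M e (M.a (M.s (M.s (M.a e)))) = M.a (M.s (M.a e)) := by
  have h := g.dist
  simp [fa, a_eq_iff, h.h15.symm, h.h25.symm, h.h45.symm]

omit g in
theorem fa_out {d : D} (h1 : d ≠ M.a (M.s e)) (h2 : d ≠ M.a (M.s (M.s e)))
    (h3 : d ≠ M.a (M.s (M.a e))) (h4 : d ≠ M.a (M.s (M.s (M.a e)))) : fa M e d = M.a d := by
  simp [fa, h1, h2, h3, h4]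

omit g in
/-- The four ways in which a dart outside of the six is related to the gadget. -/
theorem port_cases (d : D) (hd : ¬ Six M e d) :
    d = M.a (M.s e) ∨ d = M.a (M.s (M.s e)) ∨ d = M.a (M.s (M.a e)) ∨
      d = M.a (M.s (M.s (M.a e))) ∨
      (¬ Six M e (M.a d) ∧ d ≠ M.a (M.s e) ∧ d ≠ M.a (M.s (M.s e)) ∧ d ≠ M.a (M.s (M.a e)) ∧
        d ≠ M.a (M.s (M.s (M.a e)))) := by
  by_cases h1 : d = M.a (M.s e)
  · exact Or.inl h1
  by_cases h2 : d = M.a (M.s (M.s e))
  · exact Or.inr (Or.inl h2)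
  by_cases h3 : d = M.a (M.s (M.a e))
  · exact Or.inr (Or.inr (Or.inl h3))
  by_cases h4 : d = M.a (M.s (M.s (M.a e)))
  · exact Or.inr (Or.inr (Or.inr (Or.inl h4)))
  refine Or.inr (Or.inr (Or.inr (Or.inr ⟨?_, h1, h2, h3, h4⟩)))
  rintro (h | h | h | h | h | h)
  · exact hd (Or.inr (Or.inr (Or.inr (Or.inl (by rw [← h, M.a2])))))
  · exact h1 (by rw [← h, M.a2])
  · exact h2 (by rw [← h, M.a2])
  · exact hd (Or.inl (a_inj M h))
  · exact h3 (by rw [← h, M.a2])
  · exact h4 (by rw [← h, M.a2])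

end fa

/-- The map without the edge of `e` (its two ends are smoothed): the six darts are deleted, `a`
exchanges `a x1` with `a x2` and `a y1` with `a y2`. -/
noncomputable def del (M : CMap D) (e : D) (g : Gad M e) : CMap {d : D // ¬ Six M e d} where
  s := fun d => ⟨M.s d.1, by rw [six_s]; exact d.2⟩
  a := fun d => ⟨fa M e d.1, by
    rcases port_cases d.1 d.2 with h | h | h | h | ⟨h, h1, h2, h3, h4⟩
    · rw [h, fa_x1]; exact g.x2
    · rw [h, fa_x2 g]; exact g.x1
    · rw [h, fa_y1 g]; exact g.y2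
    · rw [h, fa_y2 g]; exact g.y1
    · rwa [fa_out h1 h2 h3 h4]⟩
  s3 := fun d => Subtype.ext (M.s3 d.1)
  s1 := fun d h => M.s1 d.1 (congrArg Subtype.val h)
  a2 := by
    intro d
    apply Subtype.ext
    rcases port_cases d.1 d.2 with h | h | h | h | ⟨h, h1, h2, h3, h4⟩
    · simp only [h, fa_x1, fa_x2 g]
    · simp only [h, fa_x1, fa_x2 g]
    · simp only [h, fa_y1 g, fa_y2 g]
    · simp only [h, fa_y1 g, fa_y2 g]
    · have hd := d.2
      simp only [fa_out h1 h2 h3 h4]
      have q1 : M.a d.1 ≠ M.a (M.s e) := fun q => hd (Or.inr (Or.inl (a_inj M q)))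
      have q2 : M.a d.1 ≠ M.a (M.s (M.s e)) := fun q => hd (Or.inr (Or.inr (Or.inl (a_inj M q))))
      have q3 : M.a d.1 ≠ M.a (M.s (M.a e)) := fun q =>
        hd (Or.inr (Or.inr (Or.inr (Or.inr (Or.inl (a_inj M q))))))
      have q4 : M.a d.1 ≠ M.a (M.s (M.s (M.a e))) := fun q =>
        hd (Or.inr (Or.inr (Or.inr (Or.inr (Or.inr (a_inj M q))))))
      rw [fa_out q1 q2 q3 q4, M.a2]
  a1 := by
    intro d hd
    have h0 := congrArg Subtype.val hd
    simp only at h0
    have h := g.dist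
    rcases port_cases d.1 d.2 with h' | h' | h' | h' | ⟨h', h1, h2, h3, h4⟩
    · rw [h', fa_x1] at h0; exact h.h12 (a_inj M h0).symm
    · rw [h', fa_x2 g] at h0; exact h.h12 (a_inj M h0)
    · rw [h', fa_y1 g] at h0; exact h.h45 (a_inj M h0).symm
    · rw [h', fa_y2 g] at h0; exact h.h45 (a_inj M h0)
    · rw [fa_out h1 h2 h3 h4] at h0; exact M.a1 _ h0

/-- The number of Hamilton cycles interlaced between the dart sets `A` and `B`. -/
noncomputable def NAB {D : Type} (M : CMap D) (A B : D → Prop) : ℕ :=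
  Nat.card {U : D → Bool // M.IsHam U ∧ Intl M A B U}

/-- The gadget in the flipped map. -/
theorem six_flip {M : CMap D} {e : D} (g : Gad M e) (d : D) : Six (flip M e g) e d ↔ Six M e d := by
  have h1 : (flip M e g).s e = M.s (M.s e) := fs_e M e
  have h2 : (flip M e g).s (M.s (M.s e)) = M.s (M.a e) := fs_x2 g
  have h3 : (flip M e g).s (M.a e) = M.s (M.s (M.a e)) := fs_e' g
  have h4 : (flip M e g).s (M.s (M.s (M.a e))) = M.s e := fs_y2 g
  have h5 : (flip M e g).a = M.a := rfl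
  simp only [Six, h5, h1, h2, h3, h4]
  tauto

theorem Gad.flip {M : CMap D} {e : D} (g : Gad M e) : Gad (flip M e g) e := by
  have h1 : (CA.flip M e g).s e = M.s (M.s e) := fs_e M e
  have h2 : (CA.flip M e g).s (M.s (M.s e)) = M.s (M.a e) := fs_x2 g
  have h3 : (CA.flip M e g).s (M.a e) = M.s (M.s (M.a e)) := fs_e' g
  have h4 : (CA.flip M e g).s (M.s (M.s (M.a e))) = M.s e := fs_y2 g
  have h5 : (CA.flip M e g).a = M.a := rfl
  have h := g.dist
  constructor
  · rw [h5, h1]; exact h.h23.symm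
  · rw [h5, h1, h2]; exact h.h34
  · rw [six_flip, h5, h1]; exact g.x2
  · rw [six_flip, h5, h1, h2]; exact g.y1
  · rw [six_flip, h5, h3]; exact g.y2
  · rw [six_flip, h5, h3, h4]; exact g.x1

end Pool.Agent.Helper92.CA
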