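import Pool.Agent.Helper92.CA.Trace

set_option autoImplicit false

/-!
Project Cantoni (MP_16e137_co): the four-term relation.
-/

namespace Pool.Agent.Helper92.CA
open Pool.Agent.Helper17.CT Pool.Agent.Helper66.CA

/-- The finite table behind the four-term relation. -/
theorem table : ∀ p q r t : Bool,
    (adm1 p q r t = false ∧ adm1 q r t p = false ∧ adm3 p q r t = false ∧
      adm3 q r t p = false) ∨
    (adm1 p q r t = false ∧ adm1 q r t p = false ∧ adm3 p q r t = true ∧ adm3 q r t p = true ∧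
      ∀ k1 k2 k3 k4, m3 p q r t k1 k2 k3 k4 = m3 q r t p k2 k3 k4 k1) ∨
    (adm1 p q r t = false ∧ adm1 q r t p = true ∧ adm3 p q r t = true ∧ adm3 q r t p = false ∧
      ∀ k1 k2 k3 k4, m1 q r t p k2 k3 k4 k1 = m3 p q r t k1 k2 k3 k4) ∨
    (adm1 p q r t = true ∧ adm1 q r t p = true ∧ adm3 p q r t = false ∧ adm3 q r t p = false ∧
      ∀ k1 k2 k3 k4, m1 p q r t k1 k2 k3 k4 = m1 q r t p k2 k3 k4 k1) ∨
    (adm1 p q r t = true ∧ adm1 q r t p = false ∧ adm3 p q r t = false ∧ adm3 q r t p = true ∧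
      ∀ k1 k2 k3 k4, m1 p q r t k1 k2 k3 k4 = m3 q r t p k2 k3 k4 k1) ∨
    (adm1 p q r t = true ∧ adm1 q r t p = true ∧ adm3 p q r t = true ∧ adm3 q r t p = true ∧
      (∀ k1 k2 k3 k4, m1 p q r t k1 k2 k3 k4 = m3 p q r t k1 k2 k3 k4) ∧
      ∀ k1 k2 k3 k4, m1 q r t p k2 k3 k4 k1 = m3 q r t p k2 k3 k4 k1) := by
  unfold adm1 adm3 m1 m3 F1
  decide

theorem C0_flip {D : Type} [Fintype D] (M : CMap D) (e : D) (g : Gad M e) (O K : D → Bool) :
    C0 (flip M e g) e O K = C0 M e O K := by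
  classical
  unfold C0
  refine Finset.sum_congr rfl fun d _ => ?_
  have h1 : Six (flip M e g) e d ↔ Six M e d := six_flip g d
  have h2 : Six (flip M e g) e ((flip M e g).a d) ↔ Six M e (M.a d) := six_flip g (M.a d)
  by_cases q1 : Six M e d <;> by_cases q2 : Six M e (M.a d)
  · simp [h1, h2, q1, q2]
  · simp [h1, h2, q1, q2]
  · simp [h1, h2, q1, q2]
  · simp only [h1, h2, q1, q2, or_self, if_false]
    rfl

theorem out_flip {D : Type} (M : CMap D) (e : D) (g : Gad M e) (O : D → Bool) :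
    Out (flip M e g) e O ↔ Out M e O := by
  unfold Out
  have h1 : ∀ d, Six (flip M e g) e d ↔ Six M e d := six_flip g
  refine and_congr ?_ (and_congr ?_ ?_)
  · exact forall_congr' fun d => by rw [h1]
  · refine forall_congr' fun d => ?_
    rw [h1]
    refine imp_congr_right fun _ => ?_
    change (¬ Six (flip M e g) e (M.a d) → O (M.a d) = O d) ↔ _
    rw [h1]
  · refine forall_congr' fun d => ?_
    rw [h1]
    refine imp_congr_right fun hd => ?_
    have hd1 : ¬ Six M e (M.s d) := by rwa [six_s]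
    change Pool.Agent.Helper17.CT.One (O d) (O (fs M e d)) (O (fs M e (fs M e d))) ↔ _
    rw [fs_out hd, fs_out hd1]

theorem vo_flip {D : Type} (M : CMap D) (e : D) (g : Gad M e) (K : D → Bool) :
    VO (flip M e g) e K ↔ VO M e K := by
  unfold VO
  have h1 : ∀ d, Six (flip M e g) e d ↔ Six M e d := six_flip g
  refine forall_congr' fun d => ?_
  rw [h1]
  refine imp_congr_right fun hd => ?_
  change K (fs M e d) = K d ↔ _
  rw [fs_out hd]

theorem Q_flip {D : Type} [Fintype D] (M : CMap D) (e : D) (g : Gad M e) (A B : D → Prop)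
    (O : D → Bool) (m : Bool → Bool → Bool → Bool → ℕ) :
    Q (flip M e g) e A B O m ↔ Q M e A B O (fun k1 k2 k3 k4 => m k2 k3 k4 k1) := by
  have h1 : (flip M e g).s e = M.s (M.s e) := fs_e M e
  have h2 : (flip M e g).s (M.s (M.s e)) = M.s (M.a e) := fs_x2 g
  have h3 : (flip M e g).s (M.a e) = M.s (M.s (M.a e)) := fs_e' g
  have h4 : (flip M e g).s (M.s (M.s (M.a e))) = M.s e := fs_y2 g
  have h5 : (flip M e g).a = M.a := rfl
  unfold Q
  simp only [C0_flip, vo_flip, six_flip, h5, h1, h2, h3, h4]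

theorem TM_flip {D : Type} [Fintype D] (M : CMap D) (e : D) (g : Gad M e) (A B : D → Prop)
    (O : D → Bool) : TM (flip M e g) e A B O ↔ Out M e O ∧
    adm1 (O (M.a (M.s (M.s e)))) (O (M.a (M.s (M.a e)))) (O (M.a (M.s (M.s (M.a e)))))
      (O (M.a (M.s e))) = true ∧
    Q M e A B O (fun k1 k2 k3 k4 => m1 (O (M.a (M.s (M.s e)))) (O (M.a (M.s (M.a e))))
      (O (M.a (M.s (M.s (M.a e))))) (O (M.a (M.s e))) k2 k3 k4 k1) := by
  have h1 : (flip M e g).s e = M.s (M.s e) := fs_e M e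
  have h2 : (flip M e g).s (M.s (M.s e)) = M.s (M.a e) := fs_x2 g
  have h3 : (flip M e g).s (M.a e) = M.s (M.s (M.a e)) := fs_e' g
  have h4 : (flip M e g).s (M.s (M.s (M.a e))) = M.s e := fs_y2 g
  have h5 : (flip M e g).a = M.a := rfl
  unfold TM
  rw [out_flip, Q_flip]
  simp only [h5, h1, h2, h3, h4]

theorem TD_flip {D : Type} [Fintype D] (M : CMap D) (e : D) (g : Gad M e) (A B : D → Prop)
    (O : D → Bool) : TD (flip M e g) e A B O ↔ Out M e O ∧
    adm3 (O (M.a (M.s (M.s e)))) (O (M.a (M.s (M.a e)))) (O (M.a (M.s (M.s (M.a e)))))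
      (O (M.a (M.s e))) = true ∧
    Q M e A B O (fun k1 k2 k3 k4 => m3 (O (M.a (M.s (M.s e)))) (O (M.a (M.s (M.a e))))
      (O (M.a (M.s (M.s (M.a e))))) (O (M.a (M.s e))) k2 k3 k4 k1) := by
  have h1 : (flip M e g).s e = M.s (M.s e) := fs_e M e
  have h2 : (flip M e g).s (M.s (M.s e)) = M.s (M.a e) := fs_x2 g
  have h3 : (flip M e g).s (M.a e) = M.s (M.s (M.a e)) := fs_e' g
  have h4 : (flip M e g).s (M.s (M.s (M.a e))) = M.s e := fs_y2 g
  have h5 : (flip M e g).a = M.a := rfl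
  unfold TD
  rw [out_flip, Q_flip]
  simp only [h5, h1, h2, h3, h4]

/-- THE FOUR-TERM RELATION for interlaced Hamilton cycles. -/
theorem four_term {D : Type} [Finite D] (M : CMap D) (e : D) (g : Gad M e) (A B : D → Prop)
    (hA : ∀ d, Six M e d → ¬ A d) (hB : ∀ d, Six M e d → ¬ B d) :
    Even (NAB M A B + NAB (flip M e g) A B
      + NAB (del M e g) (fun d => A d.1) (fun d => B d.1)
      + NAB (del (flip M e g) e g.flip) (fun d => A d.1) (fun d => B d.1)) := by
  classical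
  have : Fintype D := Fintype.ofFinite D
  have hA' : ∀ d, Six (flip M e g) e d → ¬ A d := fun d hd => hA d ((six_flip g d).1 hd)
  have hB' : ∀ d, Six (flip M e g) e d → ¬ B d := fun d hd => hB d ((six_flip g d).1 hd)
  rw [card_map g hA hB, card_map g.flip hA' hB', card_del g hA hB, card_del g.flip hA' hB']
  simp only [Nat.card_eq_fintype_card, Fintype.card_subtype, Finset.card_filter,
    ← Finset.sum_add_distrib]
  refine Finset.even_sum _ fun O _ => ?_
  simp only [TM_flip, TD_flip]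
  unfold TM TD
  by_cases hO : Out M e O
  · simp only [hO, true_and]
    rcases table (O (M.a (M.s e))) (O (M.a (M.s (M.s e)))) (O (M.a (M.s (M.a e))))
      (O (M.a (M.s (M.s (M.a e))))) with ⟨a1, a2, a3, a4⟩ | ⟨a1, a2, a3, a4, h⟩ |
      ⟨a1, a2, a3, a4, h⟩ | ⟨a1, a2, a3, a4, h⟩ | ⟨a1, a2, a3, a4, h⟩ | ⟨a1, a2, a3, a4, h, h'⟩
    · simp [a1, a2, a3, a4]
    · have h0 : (m3 (O (M.a (M.s e))) (O (M.a (M.s (M.s e)))) (O (M.a (M.s (M.a e))))
          (O (M.a (M.s (M.s (M.a e)))))) = fun k1 k2 k3 k4 => m3 (O (M.a (M.s (M.s e))))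
          (O (M.a (M.s (M.a e)))) (O (M.a (M.s (M.s (M.a e))))) (O (M.a (M.s e))) k2 k3 k4 k1 := by
        funext k1 k2 k3 k4; exact h k1 k2 k3 k4
      simp only [a1, a2, a3, a4, h0, true_and, false_and, Bool.false_eq_true, if_false, zero_add,
        add_zero]
      exact Even.add_self _
    · have h0 : (m3 (O (M.a (M.s e))) (O (M.a (M.s (M.s e)))) (O (M.a (M.s (M.a e))))
          (O (M.a (M.s (M.s (M.a e)))))) = fun k1 k2 k3 k4 => m1 (O (M.a (M.s (M.s e))))
          (O (M.a (M.s (M.a e)))) (O (M.a (M.s (M.s (M.a e))))) (O (M.a (M.s e))) k2 k3 k4 k1 := by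
        funext k1 k2 k3 k4; exact (h k1 k2 k3 k4).symm
      simp only [a1, a2, a3, a4, h0, true_and, false_and, Bool.false_eq_true, if_false, zero_add,
        add_zero]
      exact Even.add_self _
    · have h0 : (m1 (O (M.a (M.s e))) (O (M.a (M.s (M.s e)))) (O (M.a (M.s (M.a e))))
          (O (M.a (M.s (M.s (M.a e)))))) = fun k1 k2 k3 k4 => m1 (O (M.a (M.s (M.s e))))
          (O (M.a (M.s (M.a e)))) (O (M.a (M.s (M.s (M.a e))))) (O (M.a (M.s e))) k2 k3 k4 k1 := by
        funext k1 k2 k3 k4; exact h k1 k2 k3 k4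
      simp only [a1, a2, a3, a4, h0, true_and, false_and, Bool.false_eq_true, if_false, zero_add,
        add_zero]
      exact Even.add_self _
    · have h0 : (m1 (O (M.a (M.s e))) (O (M.a (M.s (M.s e)))) (O (M.a (M.s (M.a e))))
          (O (M.a (M.s (M.s (M.a e)))))) = fun k1 k2 k3 k4 => m3 (O (M.a (M.s (M.s e))))
          (O (M.a (M.s (M.a e)))) (O (M.a (M.s (M.s (M.a e))))) (O (M.a (M.s e))) k2 k3 k4 k1 := by
        funext k1 k2 k3 k4; exact h k1 k2 k3 k4
      simp only [a1, a2, a3, a4, h0, true_and, false_and, Bool.false_eq_true, if_false, zero_add,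
        add_zero]
      exact Even.add_self _
    · have h0 : (m1 (O (M.a (M.s e))) (O (M.a (M.s (M.s e)))) (O (M.a (M.s (M.a e))))
          (O (M.a (M.s (M.s (M.a e)))))) = m3 (O (M.a (M.s e))) (O (M.a (M.s (M.s e))))
          (O (M.a (M.s (M.a e)))) (O (M.a (M.s (M.s (M.a e))))) := by
        funext k1 k2 k3 k4; exact h k1 k2 k3 k4
      have h1 : (fun k1 k2 k3 k4 => m1 (O (M.a (M.s (M.s e)))) (O (M.a (M.s (M.a e))))
          (O (M.a (M.s (M.s (M.a e))))) (O (M.a (M.s e))) k2 k3 k4 k1) =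
          fun k1 k2 k3 k4 => m3 (O (M.a (M.s (M.s e)))) (O (M.a (M.s (M.a e))))
          (O (M.a (M.s (M.s (M.a e))))) (O (M.a (M.s e))) k2 k3 k4 k1 := by
        funext k1 k2 k3 k4; exact h' k1 k2 k3 k4
      simp only [a1, a2, a3, a4, h0, h1, true_and]
      rw [add_assoc]
      exact Even.add_self _
  · simp [hO]

end Pool.Agent.Helper92.CA
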