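import Pool.Agent.Helper92.CA.Defs

set_option autoImplicit false

/-!
Project Cantoni (MP_16e137_co): planarity passes to the flip and to the deletion.
-/

namespace Pool.Agent.Helper92.CA
open Pool.Agent.Helper17.CT Pool.Agent.Helper66.CA

section
variable {D : Type} {M : CMap D} {e : D} (g : Gad M e)

include g

open Classical in
/-- An even set of the flipped map gives an even set of the map. -/
private theorem even_flip {Z : D → Bool} (hZ : (flip M e g).Even Z) :
    M.Even (fun d => if d = e ∨ d = M.a e then (Z (M.s e) ^^ Z (M.s (M.s e))) else Z d) := by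
  have h := g.dist
  have ha : ∀ d, Z (M.a d) = Z d := hZ.1
  have k1 : (Z e ^^ Z (M.s (M.s e)) ^^ Z (M.s (M.a e))) = false := by
    have := hZ.2 e
    change (Z e ^^ Z (fs M e e) ^^ Z (fs M e (fs M e e))) = false at this
    rwa [fs_e, fs_x2 g] at this
  have k2 : (Z (M.a e) ^^ Z (M.s (M.s (M.a e))) ^^ Z (M.s e)) = false := by
    have := hZ.2 (M.a e)
    change (Z (M.a e) ^^ Z (fs M e (M.a e)) ^^ Z (fs M e (fs M e (M.a e)))) = false at this
    rwa [fs_e' g, fs_y2 g] at this
  rw [ha] at k2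
  constructor
  · intro d
    by_cases h1 : d = e
    · subst h1; simp
    by_cases h2 : d = M.a e
    · subst h2; simp [M.a2]
    have h3 : M.a d ≠ e := fun q => h2 (by rw [← q, M.a2])
    have h4 : M.a d ≠ M.a e := fun q => h1 (a_inj M q)
    simp [h1, h2, h3, h4, ha]
  · intro d
    by_cases hd : Six M e d
    · rcases hd with h' | h' | h' | h' | h' | h' <;> rw [h'] <;>
        simp only [M.s3, h.h01.symm, h.h02.symm, h.h13, h.h23, h.h34.symm, h.h35.symm, h.h04.symm,
          h.h05.symm, h.h03.symm, true_or, or_true, if_true, if_false,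
          or_self] <;>
        (revert k1 k2; generalize Z e = z0; generalize Z (M.s e) = z1;
          generalize Z (M.s (M.s e)) = z2; generalize Z (M.s (M.a e)) = z4;
          generalize Z (M.s (M.s (M.a e))) = z5; revert z0 z1 z2 z4 z5; decide)
    · have hd1 : ¬ Six M e (M.s d) := by rwa [six_s]
      have hd2 : ¬ Six M e (M.s (M.s d)) := by rwa [six_s]
      have := hZ.2 d
      change (Z d ^^ Z (fs M e d) ^^ Z (fs M e (fs M e d))) = false at this
      rw [fs_out hd, fs_out hd1] at this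
      have q : ∀ z, ¬ Six M e z → ¬ (z = e ∨ z = M.a e) := fun z hz q => hz (by
        rcases q with q | q
        · exact Or.inl q
        · exact Or.inr (Or.inr (Or.inr (Or.inl q))))
      simp only [q d hd, q _ hd1, q _ hd2, if_false]
      exact this

theorem planar_flip (hp : M.Planar) : (flip M e g).Planar := by
  classical
  intro Z hZ
  have h := g.dist
  have ha : ∀ d, Z (M.a d) = Z d := hZ.1
  have k1 : (Z e ^^ Z (M.s (M.s e)) ^^ Z (M.s (M.a e))) = false := by
    have := hZ.2 e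
    change (Z e ^^ Z (fs M e e) ^^ Z (fs M e (fs M e e))) = false at this
    rwa [fs_e, fs_x2 g] at this
  obtain ⟨φ, hφ, hb⟩ := hp _ (even_flip g hZ)
  have r : ∀ d, φ (M.s d) = φ (M.a d) := by
    intro d
    have := hφ (M.a d)
    rwa [CMap.f, M.a2] at this
  have hb2 : ∀ d, d ≠ e → d ≠ M.a e → Z d = (φ d ^^ φ (M.a d)) := by
    intro d h1 h2
    have := hb d
    simpa [h1, h2] using this
  set φ2 : D → Bool := fun d => if d = e then φ (M.a (M.s (M.a e))) else
    if d = M.a e then φ (M.a (M.s e)) else φ d with hφ2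
  have v0 : φ2 e = φ (M.a (M.s (M.a e))) := by simp [hφ2]
  have v3 : φ2 (M.a e) = φ (M.a (M.s e)) := by simp [hφ2, h.h03.symm]
  have vo : ∀ d, d ≠ e → d ≠ M.a e → φ2 d = φ d := by
    intro d h1 h2; simp [hφ2, h1, h2]
  have vp : ∀ d, d ≠ e → d ≠ M.a e → φ2 (M.a d) = φ (M.a d) := by
    intro d h1 h2
    exact vo _ (fun q => h2 (by rw [← q, M.a2])) (fun q => h1 (a_inj M q))
  have key : ∀ d, φ2 (fs M e d) = φ2 (M.a d) := by
    intro d
    by_cases hd : Six M e d
    · rcases hd with h' | h' | h' | h' | h' | h' <;> subst h'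
      · rw [fs_e, vo _ h.h02.symm h.h23, v3, r]
      · rw [fs_x1 g, v3, vp _ h.h01.symm h.h13]
      · rw [fs_x2 g, vo _ h.h04.symm h.h34.symm, vp _ h.h02.symm h.h23, r, M.a2,
          ← M.s3 e, r]
        simp only [M.s3]
      · rw [fs_e' g, vo _ h.h05.symm h.h35.symm, M.a2, v0, r]
      · rw [fs_y1 g, v0, vp _ h.h04.symm h.h34.symm]
      · rw [fs_y2 g, vo _ h.h01.symm h.h13, vp _ h.h05.symm h.h35.symm, r, ← r (M.s (M.s (M.a e))),
          M.s3]
    · have hd1 : ¬ Six M e (M.s d) := by rwa [six_s]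
      have q : ∀ z, ¬ Six M e z → z ≠ e ∧ z ≠ M.a e := fun z hz =>
        ⟨fun q => hz (Or.inl q), fun q => hz (Or.inr (Or.inr (Or.inr (Or.inl q))))⟩
      rw [fs_out hd, vo _ (q _ hd1).1 (q _ hd1).2, vp _ (q _ hd).1 (q _ hd).2, r]
  refine ⟨φ2, fun d => ?_, fun d => ?_⟩
  · change φ2 (fs M e (M.a d)) = φ2 d
    rw [key, M.a2]
  · change Z d = (φ2 d ^^ φ2 (M.a d))
    by_cases h1 : d = e
    · subst h1
      rw [v0, v3]
      have e1 := hb2 (M.s (M.s d)) h.h02.symm h.h23
      have e2 := hb2 (M.s (M.a d)) h.h04.symm h.h34.symm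
      rw [r (M.s d)] at e1
      rw [r (M.a d), M.a2, ← M.s3 d, r (M.s (M.s d))] at e2
      simp only [M.s3] at e2
      revert k1 e1 e2
      generalize Z d = z0; generalize Z (M.s (M.s d)) = z2
      generalize Z (M.s (M.a d)) = z4
      generalize φ (M.a (M.s d)) = p1; generalize φ (M.a (M.s (M.s d))) = p2
      generalize φ (M.a (M.s (M.a d))) = p3
      revert z0 z2 z4 p1 p2 p3; decide
    by_cases h2 : d = M.a e
    · subst h2
      rw [M.a2, v0, v3, ha]
      have e1 := hb2 (M.s (M.s e)) h.h02.symm h.h23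
      have e2 := hb2 (M.s (M.a e)) h.h04.symm h.h34.symm
      rw [r (M.s e)] at e1
      rw [r (M.a e), M.a2] at e2
      have e3 : φ e = φ (M.a (M.s (M.s e))) := by rw [← r, M.s3]
      rw [e3] at e2
      revert k1 e1 e2
      generalize Z e = z0; generalize Z (M.s (M.s e)) = z2
      generalize Z (M.s (M.a e)) = z4
      generalize φ (M.a (M.s e)) = p1; generalize φ (M.a (M.s (M.s e))) = p2
      generalize φ (M.a (M.s (M.a e))) = p3
      revert z0 z2 z4 p1 p2 p3; decide
    rw [vo _ h1 h2, vp _ h1 h2]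
    exact hb2 d h1 h2

omit g in
/-- The two values of `M.s` at the gadget. -/
private theorem ph (φ : D → Bool) (hφ : ∀ d, φ (M.f d) = φ d) (d : D) :
    φ (M.s d) = φ (M.a d) := by
  have := hφ (M.a d)
  rwa [CMap.f, M.a2] at this

theorem planar_del (hp : M.Planar) : (del M e g).Planar := by
  classical
  intro Z hZ
  have h := g.dist
  set P1 : {d : D // ¬ Six M e d} := ⟨M.a (M.s e), g.x1⟩ with hP1
  set P2 : {d : D // ¬ Six M e d} := ⟨M.a (M.s (M.s e)), g.x2⟩ with hP2
  set P3 : {d : D // ¬ Six M e d} := ⟨M.a (M.s (M.a e)), g.y1⟩ with hP3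
  set P4 : {d : D // ¬ Six M e d} := ⟨M.a (M.s (M.s (M.a e))), g.y2⟩ with hP4
  have a12 : (del M e g).a P1 = P2 := Subtype.ext (fa_x1 M e)
  have a34 : (del M e g).a P3 = P4 := Subtype.ext (fa_y1 g)
  have z12 : Z P2 = Z P1 := by rw [← a12]; exact hZ.1 P1
  have z34 : Z P4 = Z P3 := by rw [← a34]; exact hZ.1 P3
  set W : D → Bool := fun d => if hd : Six M e d then
      (if d = e ∨ d = M.a e then false else
        if d = M.s e ∨ d = M.s (M.s e) then Z P1 else Z P3) else Z ⟨d, hd⟩ with hW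
  have six0 : Six M e e := Or.inl rfl
  have six1 : Six M e (M.s e) := Or.inr (Or.inl rfl)
  have six2 : Six M e (M.s (M.s e)) := Or.inr (Or.inr (Or.inl rfl))
  have six3 : Six M e (M.a e) := Or.inr (Or.inr (Or.inr (Or.inl rfl)))
  have six4 : Six M e (M.s (M.a e)) := Or.inr (Or.inr (Or.inr (Or.inr (Or.inl rfl))))
  have six5 : Six M e (M.s (M.s (M.a e))) := Or.inr (Or.inr (Or.inr (Or.inr (Or.inr rfl))))
  have w0 : W e = false := by simp [hW, six0]
  have w1 : W (M.s e) = Z P1 := by simp [hW, six1, h.h01.symm, h.h13]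
  have w2 : W (M.s (M.s e)) = Z P1 := by simp [hW, six2, h.h02.symm, h.h23]
  have w3 : W (M.a e) = false := by simp [hW, six3]
  have w4 : W (M.s (M.a e)) = Z P3 := by
    simp [hW, six4, h.h04.symm, h.h34.symm, h.h14.symm, h.h24.symm]
  have w5 : W (M.s (M.s (M.a e))) = Z P3 := by
    simp [hW, six5, h.h05.symm, h.h35.symm, h.h15.symm, h.h25.symm]
  have wo : ∀ (d : D) (hd : ¬ Six M e d), W d = Z ⟨d, hd⟩ := by
    intro d hd; simp [hW, hd]
  have hE : M.Even W := by
    constructor
    · intro d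
      by_cases hd : Six M e d
      · rcases hd with h' | h' | h' | h' | h' | h' <;> rw [h']
        · rw [w0, w3]
        · rw [w1, wo _ g.x1]
        · rw [w2, wo _ g.x2]; exact z12
        · rw [M.a2, w0, w3]
        · rw [w4, wo _ g.y1]
        · rw [w5, wo _ g.y2]; exact z34
      · rcases port_cases d hd with h' | h' | h' | h' | ⟨h', h1, h2, h3, h4⟩
        · rw [h', M.a2, w1, wo _ g.x1]
        · rw [h', M.a2, w2, wo _ g.x2]; exact z12.symm
        · rw [h', M.a2, w4, wo _ g.y1]
        · rw [h', M.a2, w5, wo _ g.y2]; exact z34.symm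
        · rw [wo _ h', wo _ hd]
          have := hZ.1 ⟨d, hd⟩
          have e1 : (del M e g).a ⟨d, hd⟩ = ⟨M.a d, h'⟩ := Subtype.ext (fa_out h1 h2 h3 h4)
          rwa [e1] at this
    · intro d
      by_cases hd : Six M e d
      · rcases hd with h' | h' | h' | h' | h' | h' <;> rw [h'] <;>
          simp only [M.s3, w0, w1, w2, w3, w4, w5] <;> (try cases Z P1) <;> (try cases Z P3) <;> rfl
      · have hd1 : ¬ Six M e (M.s d) := by rwa [six_s]
        have hd2 : ¬ Six M e (M.s (M.s d)) := by rwa [six_s]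
        rw [wo _ hd, wo _ hd1, wo _ hd2]
        exact hZ.2 ⟨d, hd⟩
  obtain ⟨φ, hφ, hb⟩ := hp _ hE
  have r := ph φ hφ
  have b0 : φ e = φ (M.a e) := by
    have := hb e
    rw [w0] at this
    revert this; cases φ e <;> cases φ (M.a e) <;> simp
  have pe : φ e = φ (M.a (M.s (M.s e))) := by rw [← r, M.s3]
  have pe' : φ (M.a e) = φ (M.a (M.s (M.s (M.a e)))) := by rw [← r (M.s (M.s (M.a e))), M.s3]
  have b24 : φ (M.a (M.s (M.s e))) = φ (M.a (M.s (M.s (M.a e)))) := by rw [← pe, ← pe', b0]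
  have key : ∀ d : {d : D // ¬ Six M e d},
      φ ((del M e g).s d).1 = φ ((del M e g).a d).1 := by
    intro d
    change φ (M.s d.1) = φ (fa M e d.1)
    rcases port_cases d.1 d.2 with h' | h' | h' | h' | ⟨h', h1, h2, h3, h4⟩
    · rw [h', fa_x1, r, M.a2, r, ← b0, pe]
    · rw [h', fa_x2 g, r, M.a2, r]
    · rw [h', fa_y1 g, r, M.a2, r, M.a2, b0, pe']
    · rw [h', fa_y2 g, r, M.a2, r]
    · rw [fa_out h1 h2 h3 h4, r]
  refine ⟨fun d => φ d.1, fun d => ?_, fun d => ?_⟩
  · change φ ((del M e g).s ((del M e g).a d)).1 = φ d.1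
    rw [key, (del M e g).a2]
  · change Z d = (φ d.1 ^^ φ (fa M e d.1))
    rcases port_cases d.1 d.2 with h' | h' | h' | h' | ⟨h', h1, h2, h3, h4⟩
    · have e1 : d = P1 := Subtype.ext h'
      have := hb (M.s e)
      rw [w1, r e, pe', ← b24] at this
      rw [h', fa_x1, e1, this, Bool.xor_comm]
    · have e1 : d = P2 := Subtype.ext h'
      have := hb (M.s (M.s e))
      rw [w2, r (M.s e)] at this
      rw [h', fa_x2 g, e1, z12, this, Bool.xor_comm]
    · have e1 : d = P3 := Subtype.ext h'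
      have := hb (M.s (M.a e))
      rw [w4, r (M.a e), M.a2, b0, pe'] at this
      rw [h', fa_y1 g, e1, this, Bool.xor_comm]
    · have e1 : d = P4 := Subtype.ext h'
      have := hb (M.s (M.s (M.a e)))
      rw [w5, r (M.s (M.a e))] at this
      rw [h', fa_y2 g, e1, z34, this, Bool.xor_comm]
    · rw [fa_out h1 h2 h3 h4]
      have := hb d.1
      rwa [wo _ d.2] at this

end

end Pool.Agent.Helper92.CA
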