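import Pool.Agent.Helper92.CA.Defs

set_option autoImplicit false

/-!
Project Cantoni (MP_16e137_co): Hamilton cycles and interlacing in terms of cuts.
-/

namespace Pool.Agent.Helper92.CA
open Pool.Agent.Helper17.CT Pool.Agent.Helper66.CA

variable {D : Type}

/-- The number of darts of `U` which leave `J`. -/
noncomputable def cut (M : CMap D) (U J : D → Bool) : ℕ :=
  Nat.card {d : D // U d = true ∧ J d = true ∧ J (M.a d) = false}

/-- `J` takes both values. -/
def NC (J : D → Bool) : Prop := (∃ d, J d = true) ∧ ∃ d, J d = false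

theorem one_exists {p q r : Bool} (h : One p q r) : p = true ∨ q = true ∨ r = true := by
  rcases h with ⟨_, h, _⟩ | ⟨h, _, _⟩ | ⟨h, _, _⟩
  · exact Or.inr (Or.inl h)
  · exact Or.inl h
  · exact Or.inl h

theorem cross_of_conn (M : CMap D) (U J : D → Bool) (hJ : M.VSet J) {x y : D}
    (h : Conn M.s M.a U x y) (hx : J x = true) (hy : J y = false) :
    ∃ d, U d = true ∧ J d = true ∧ J (M.a d) = false := by
  by_contra hno
  push Not at hno
  have key : ∀ z, Conn M.s M.a U x z → J z = true := by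
    intro z hz
    induction hz with
    | refl => exact hx
    | tail h1 h2 ih =>
      obtain ⟨u1, u2, h3⟩ := h2
      rcases h3 with h3 | h3 | h3
      · rw [h3]
        have := hno _ u1 ih
        simpa using this
      · rw [h3, hJ]; exact ih
      · rw [h3, hJ, hJ]; exact ih
  rw [key y h] at hy
  exact Bool.noConfusion hy

theorem conn_iff_cut [Finite D] (M : CMap D) (U : D → Bool) (hacl : ∀ d, U (M.a d) = U d)
    (hone : ∀ d, One (U d) (U (M.s d)) (U (M.s (M.s d)))) :
    (∀ x y, U x = true → U y = true → Conn M.s M.a U x y) ↔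
      ∀ J : D → Bool, M.VSet J → NC J → 1 ≤ cut M U J := by
  classical
  constructor
  · rintro h J hJ ⟨⟨d1, h1⟩, d0, h0⟩
    obtain ⟨x, hx, jx⟩ : ∃ x, U x = true ∧ J x = true := by
      rcases one_exists (hone d1) with h | h | h
      · exact ⟨_, h, h1⟩
      · exact ⟨_, h, by rw [hJ]; exact h1⟩
      · exact ⟨_, h, by rw [hJ, hJ]; exact h1⟩
    obtain ⟨y, hy, jy⟩ : ∃ y, U y = true ∧ J y = false := by
      rcases one_exists (hone d0) with h | h | h
      · exact ⟨_, h, h0⟩
      · exact ⟨_, h, by rw [hJ]; exact h0⟩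
      · exact ⟨_, h, by rw [hJ, hJ]; exact h0⟩
    obtain ⟨d, hd⟩ := cross_of_conn M U J hJ (h x y hx hy) jx jy
    have : Nonempty {d : D // U d = true ∧ J d = true ∧ J (M.a d) = false} := ⟨⟨d, hd⟩⟩
    exact Nat.card_pos
  · intro h x y hx hy
    by_contra hno
    set J : D → Bool := fun d => decide (∃ z, (z = d ∨ z = M.s d ∨ z = M.s (M.s d)) ∧
      U z = true ∧ Conn M.s M.a U x z) with hJdef
    have hJt : ∀ d, J d = true ↔ ∃ z, (z = d ∨ z = M.s d ∨ z = M.s (M.s d)) ∧
      U z = true ∧ Conn M.s M.a U x z := fun d => by simp [hJdef]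
    have hJ : M.VSet J := by
      intro d
      rw [Bool.eq_iff_iff, hJt, hJt]
      constructor
      · rintro ⟨z, h1, h2⟩
        refine ⟨z, ?_, h2⟩
        rw [M.s3] at h1
        tauto
      · rintro ⟨z, h1, h2⟩
        refine ⟨z, ?_, h2⟩
        rw [M.s3]
        tauto
    have hsame : ∀ z d, (z = d ∨ z = M.s d ∨ z = M.s (M.s d)) → U z = true → U d = true →
        Conn M.s M.a U z d := by
      rintro z d (h1 | h1 | h1) h2 h3
      · rw [h1]; exact Relation.ReflTransGen.refl
      · exact Relation.ReflTransGen.single ⟨h2, h3, Or.inr (Or.inr (by rw [h1, M.s3]))⟩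
      · exact Relation.ReflTransGen.single ⟨h2, h3, Or.inr (Or.inl (by rw [h1, M.s3]))⟩
    have jx : J x = true := (hJt x).2 ⟨x, Or.inl rfl, hx, Relation.ReflTransGen.refl⟩
    have jy : J y = false := by
      by_contra hc
      rw [Bool.not_eq_false, hJt] at hc
      obtain ⟨z, h1, h2, h3⟩ := hc
      exact hno (Relation.ReflTransGen.trans h3 (hsame z y h1 h2 hy))
    have hc := h J hJ ⟨⟨x, jx⟩, y, jy⟩
    have hc' : 0 < cut M U J := hc
    unfold cut at hc'
    obtain ⟨⟨d, u1, j1, j2⟩⟩ := (Nat.card_pos_iff.1 hc').1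
    obtain ⟨z, h1, h2, h3⟩ := (hJt d).1 j1
    have h4 : Conn M.s M.a U x d := Relation.ReflTransGen.trans h3 (hsame z d h1 h2 u1)
    have u2 : U (M.a d) = true := by rw [hacl]; exact u1
    have h5 : Conn M.s M.a U x (M.a d) := h4.tail ⟨u1, u2, Or.inl rfl⟩
    rw [(hJt (M.a d)).2 ⟨_, Or.inl rfl, u2, h5⟩] at j2
    exact Bool.noConfusion j2

/-- Hamilton cycles interlaced between `A` and `B`, in terms of cuts. -/
theorem ham_intl_iff [Finite D] (M : CMap D) (A B : D → Prop) (U : D → Bool) :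
    (M.IsHam U ∧ Intl M A B U) ↔
      (∀ d, U (M.a d) = U d) ∧ (∀ d, One (U d) (U (M.s d)) (U (M.s (M.s d)))) ∧
      (∀ J : D → Bool, M.VSet J → NC J → 1 ≤ cut M U J) ∧
      (∀ J : D → Bool, M.VSet J → (∀ d, A d → J d = false) → (∀ d, B d → J d = true) →
        4 ≤ cut M U J) := by
  constructor
  · rintro ⟨h, h'⟩
    exact ⟨h.acl, h.one, (conn_iff_cut M U h.acl h.one).1 h.conn, h'⟩
  · rintro ⟨h1, h2, h3, h4⟩
    exact ⟨⟨h1, h2, (conn_iff_cut M U h1 h2).2 h3⟩, h4⟩

open Classical in
theorem cut_eq_sum [Fintype D] (M : CMap D) (U J : D → Bool) :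
    cut M U J = ∑ d, (U d && J d && !J (M.a d)).toNat := by
  unfold cut
  rw [Nat.card_eq_fintype_card, Fintype.card_subtype, Finset.card_filter]
  refine Finset.sum_congr rfl fun d _ => ?_
  cases U d <;> cases J d <;> cases J (M.a d) <;> simp

end Pool.Agent.Helper92.CA
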