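import Pool.Agent.Helper92.CA.CutConn

set_option autoImplicit false

/-!
Project Cantoni (MP_16e137_co): cuts of the four maps, in terms of the outer darts.
-/

namespace Pool.Agent.Helper92.CA
open Pool.Agent.Helper17.CT Pool.Agent.Helper66.CA

variable {D : Type}

open Classical in
theorem sum_ten [Fintype D] {M : CMap D} {e : D} (g : Gad M e) (G : D → ℕ) :
    ∑ d, G d = (∑ d, if Six M e d ∨ Six M e (M.a d) then 0 else G d) +
      (G e + (G (M.s e) + (G (M.s (M.s e)) + (G (M.a e) + (G (M.s (M.a e)) +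
      (G (M.s (M.s (M.a e))) + (G (M.a (M.s e)) + (G (M.a (M.s (M.s e))) +
      (G (M.a (M.s (M.a e))) + G (M.a (M.s (M.s (M.a e)))))))))))) ) := by
  have h := g.dist
  have hx1 := g.x1
  have hx2 := g.x2
  have hy1 := g.y1
  have hy2 := g.y2
  simp only [Six, not_or] at hx1 hx2 hy1 hy2
  obtain ⟨a0, a1, a2, a3, a4, a5⟩ := hx1
  obtain ⟨b0, b1, b2, b3, b4, b5⟩ := hx2
  obtain ⟨c0, c1, c2, c3, c4, c5⟩ := hy1
  obtain ⟨d0, d1, d2, d3, d4, d5⟩ := hy2
  have hsplit : ∑ d, G d = (∑ d, if Six M e d ∨ Six M e (M.a d) then 0 else G d) +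
      ∑ d, if Six M e d ∨ Six M e (M.a d) then G d else 0 := by
    rw [← Finset.sum_add_distrib]
    refine Finset.sum_congr rfl fun d _ => ?_
    split_ifs <;> simp
  rw [hsplit, ← Finset.sum_filter]
  have hT : Finset.univ.filter (fun d => Six M e d ∨ Six M e (M.a d)) =
      {e, M.s e, M.s (M.s e), M.a e, M.s (M.a e), M.s (M.s (M.a e)), M.a (M.s e),
        M.a (M.s (M.s e)), M.a (M.s (M.a e)), M.a (M.s (M.s (M.a e)))} := by
    ext d
    simp only [Finset.mem_filter, Finset.mem_univ, true_and, Finset.mem_insert,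
      Finset.mem_singleton]
    constructor
    · rintro (h | h)
      · unfold Six at h; tauto
      · rcases h with h | h | h | h | h | h <;>
          (have h' := congrArg M.a h; rw [M.a2] at h'; try rw [M.a2] at h') <;> tauto
    · intro h
      rcases h with h | h | h | h | h | h | h | h | h | h <;> subst h <;>
        simp [Six, M.a2]
  rw [hT]
  congr 1
  rw [Finset.sum_insert, Finset.sum_insert, Finset.sum_insert, Finset.sum_insert,
    Finset.sum_insert, Finset.sum_insert, Finset.sum_insert, Finset.sum_insert,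
    Finset.sum_insert, Finset.sum_singleton]
  · simp [a_eq_iff, h.h45]
  · simp [a_eq_iff, h.h24, h.h25]
  · simp [a_eq_iff, h.h12, h.h14, h.h15]
  · simp [Ne.symm a5, Ne.symm b5, Ne.symm c5, Ne.symm d5]
  · simp [h.h45, Ne.symm a4, Ne.symm b4, Ne.symm c4, Ne.symm d4]
  · simp [h.h34, h.h35, Ne.symm a3, Ne.symm b3, Ne.symm c3, Ne.symm d3]
  · simp [h.h23, h.h24, h.h25, Ne.symm a2, Ne.symm b2, Ne.symm c2, Ne.symm d2]
  · simp [h.h12, h.h13, h.h14, h.h15, Ne.symm a1, Ne.symm b1, Ne.symm c1, Ne.symm d1]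
  · simp [h.h01, h.h02, h.h03, h.h04, h.h05, Ne.symm a0, Ne.symm b0, Ne.symm c0, Ne.symm d0]

open Classical in
/-- The part of the cut which does not touch the gadget. -/
noncomputable def C0 [Fintype D] (M : CMap D) (e : D) (O K : D → Bool) : ℕ :=
  ∑ d, if Six M e d ∨ Six M e (M.a d) then 0 else (O d && K d && !K (M.a d)).toNat

/-- The part of the cut at the gadget, in the map itself. -/
def F1 (p q r t k1 k2 k3 k4 jx jy : Bool) : ℕ :=
  (p && k1 && !jx).toNat + (q && k2 && !jx).toNat + (r && k3 && !jy).toNat +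
    (t && k4 && !jy).toNat + (p && jx && !k1).toNat + (q && jx && !k2).toNat +
    (r && jy && !k3).toNat + (t && jy && !k4).toNat + (!(p && q) && jx && !jy).toNat +
    (!(p && q) && jy && !jx).toNat

/-- The minimum of `F1` over the positions of the two ends of `e`. -/
def m1 (p q r t k1 k2 k3 k4 : Bool) : ℕ :=
  min (min (F1 p q r t k1 k2 k3 k4 false false) (F1 p q r t k1 k2 k3 k4 false true))
    (min (F1 p q r t k1 k2 k3 k4 true false) (F1 p q r t k1 k2 k3 k4 true true))

/-- The part of the cut at the gadget, in the map without the edge of `e`. -/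
def m3 (p q r t k1 k2 k3 k4 : Bool) : ℕ :=
  (p && k1 && !k2).toNat + (q && k2 && !k1).toNat + (r && k3 && !k4).toNat +
    (t && k4 && !k3).toNat

theorem m1_le (p q r t k1 k2 k3 k4 jx jy : Bool) :
    m1 p q r t k1 k2 k3 k4 ≤ F1 p q r t k1 k2 k3 k4 jx jy := by
  unfold m1
  cases jx <;> cases jy
  · exact le_trans (min_le_left _ _) (min_le_left _ _)
  · exact le_trans (min_le_left _ _) (min_le_right _ _)
  · exact le_trans (min_le_right _ _) (min_le_left _ _)
  · exact le_trans (min_le_right _ _) (min_le_right _ _)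

theorem m1_att (p q r t k1 k2 k3 k4 : Bool) :
    ∃ jx jy, F1 p q r t k1 k2 k3 k4 jx jy = m1 p q r t k1 k2 k3 k4 := by
  unfold m1
  rcases min_choice (min (F1 p q r t k1 k2 k3 k4 false false) (F1 p q r t k1 k2 k3 k4 false true))
    (min (F1 p q r t k1 k2 k3 k4 true false) (F1 p q r t k1 k2 k3 k4 true true)) with h | h
  · rw [h]
    rcases min_choice (F1 p q r t k1 k2 k3 k4 false false)
      (F1 p q r t k1 k2 k3 k4 false true) with h | h
    · exact ⟨_, _, h.symm⟩
    · exact ⟨_, _, h.symm⟩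
  · rw [h]
    rcases min_choice (F1 p q r t k1 k2 k3 k4 true false)
      (F1 p q r t k1 k2 k3 k4 true true) with h | h
    · exact ⟨_, _, h.symm⟩
    · exact ⟨_, _, h.symm⟩

/-- The cut of `M` at the gadget. -/
theorem cut_map [Fintype D] {M : CMap D} {e : D} (g : Gad M e) (U J : D → Bool)
    (hJ : M.VSet J) (hacl : ∀ d, U (M.a d) = U d)
    (he : U e = !(U (M.a (M.s e)) && U (M.a (M.s (M.s e))))) :
    cut M U J = C0 M e U J + F1 (U (M.a (M.s e))) (U (M.a (M.s (M.s e)))) (U (M.a (M.s (M.a e))))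
      (U (M.a (M.s (M.s (M.a e))))) (J (M.a (M.s e))) (J (M.a (M.s (M.s e))))
      (J (M.a (M.s (M.a e)))) (J (M.a (M.s (M.s (M.a e))))) (J e) (J (M.a e)) := by
  classical
  rw [cut_eq_sum, sum_ten g, C0]
  congr 1
  have e' : U (M.a e) = !(U (M.a (M.s e)) && U (M.a (M.s (M.s e)))) := by rw [hacl, he]
  simp only [M.a2, hJ e, hJ (M.s e), hJ (M.a e), hJ (M.s (M.a e)), F1]
  rw [e', he]
  simp only [hacl]
  ring

/-- The cut of the map without the edge of `e`. -/
theorem cut_del [Fintype D] {M : CMap D} {e : D} (g : Gad M e) (O K : D → Bool) :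
    cut (del M e g) (fun d => O d.1) (fun d => K d.1) =
      C0 M e O K + m3 (O (M.a (M.s e))) (O (M.a (M.s (M.s e)))) (O (M.a (M.s (M.a e))))
      (O (M.a (M.s (M.s (M.a e))))) (K (M.a (M.s e))) (K (M.a (M.s (M.s e))))
      (K (M.a (M.s (M.a e)))) (K (M.a (M.s (M.s (M.a e))))) := by
  classical
  rw [cut_eq_sum]
  have h1 : ∑ d : {d : D // ¬ Six M e d}, (O d.1 && K d.1 && !K ((del M e g).a d).1).toNat =
      ∑ d, if Six M e d then 0 else (O d && K d && !K (fa M e d)).toNat := by
    change ∑ d : {d : D // ¬ Six M e d}, (fun d => (O d && K d && !K (fa M e d)).toNat) d.1 = _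
    rw [← Finset.sum_subtype (Finset.univ.filter (fun d => ¬ Six M e d)) (by simp)
      (fun d => (O d && K d && !K (fa M e d)).toNat), Finset.sum_filter]
    refine Finset.sum_congr rfl fun d _ => ?_
    by_cases h : Six M e d <;> simp [h]
  rw [h1, sum_ten g, C0]
  have six0 : Six M e e := Or.inl rfl
  have six1 : Six M e (M.s e) := Or.inr (Or.inl rfl)
  have six2 : Six M e (M.s (M.s e)) := Or.inr (Or.inr (Or.inl rfl))
  have six3 : Six M e (M.a e) := Or.inr (Or.inr (Or.inr (Or.inl rfl)))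
  have six4 : Six M e (M.s (M.a e)) := Or.inr (Or.inr (Or.inr (Or.inr (Or.inl rfl))))
  have six5 : Six M e (M.s (M.s (M.a e))) := Or.inr (Or.inr (Or.inr (Or.inr (Or.inr rfl))))
  congr 1
  · refine Finset.sum_congr rfl fun d _ => ?_
    by_cases h : Six M e d
    · simp [h]
    · by_cases h' : Six M e (M.a d)
      · simp [h']
      · rcases port_cases d h with q | q | q | q | ⟨_, q1, q2, q3, q4⟩
        · exact absurd (by rw [q, M.a2]; exact six1) h'
        · exact absurd (by rw [q, M.a2]; exact six2) h'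
        · exact absurd (by rw [q, M.a2]; exact six4) h'
        · exact absurd (by rw [q, M.a2]; exact six5) h'
        · simp [h, h', fa_out q1 q2 q3 q4]
  · simp only [six0, six1, six2, six3, six4, six5, if_true, g.x1, g.x2, g.y1, g.y2, if_false,
      fa_x1, fa_x2 g, fa_y1 g, fa_y2 g, m3]
    ring

end Pool.Agent.Helper92.CA
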