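import Pool.Agent.Helper92.CA.Sums

set_option autoImplicit false

/-!
Project Cantoni (MP_16e137_co): interlaced Hamilton cycles in terms of their outer traces.
-/

namespace Pool.Agent.Helper92.CA
open Pool.Agent.Helper17.CT Pool.Agent.Helper66.CA

variable {D : Type}

/-- The conditions on a trace at the outer darts. -/
def Out (M : CMap D) (e : D) (O : D → Bool) : Prop :=
  (∀ d, Six M e d → O d = false) ∧
  (∀ d, ¬ Six M e d → ¬ Six M e (M.a d) → O (M.a d) = O d) ∧
  ∀ d, ¬ Six M e d → One (O d) (O (M.s d)) (O (M.s (M.s d)))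

/-- Vertex sets on the outer darts. -/
def VO (M : CMap D) (e : D) (K : D → Bool) : Prop := ∀ d, ¬ Six M e d → K (M.s d) = K d

/-- The cut conditions, with the function `m` of the positions of the four port darts. -/
def Q [Fintype D] (M : CMap D) (e : D) (A B : D → Prop) (O : D → Bool)
    (m : Bool → Bool → Bool → Bool → ℕ) : Prop :=
  (∀ K, VO M e K → (∃ d, ¬ Six M e d ∧ K d = true) → (∃ d, ¬ Six M e d ∧ K d = false) →
    1 ≤ C0 M e O K + m (K (M.a (M.s e))) (K (M.a (M.s (M.s e)))) (K (M.a (M.s (M.a e))))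
      (K (M.a (M.s (M.s (M.a e)))))) ∧
  (∀ K, VO M e K → (∀ d, A d → K d = false) → (∀ d, B d → K d = true) →
    4 ≤ C0 M e O K + m (K (M.a (M.s e))) (K (M.a (M.s (M.s e)))) (K (M.a (M.s (M.a e))))
      (K (M.a (M.s (M.s (M.a e))))))

/-- Port patterns which occur in the map itself. -/
def adm1 (p q r t : Bool) : Bool := (p || q) && (r || t) && ((p && q) == (r && t))

/-- Port patterns which occur in the map without the edge of `e`. -/
def adm3 (p q r t : Bool) : Bool := (p == q) && (r == t)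

/-- Traces of interlaced Hamilton cycles of the map. -/
def TM [Fintype D] (M : CMap D) (e : D) (A B : D → Prop) (O : D → Bool) : Prop :=
  Out M e O ∧
  adm1 (O (M.a (M.s e))) (O (M.a (M.s (M.s e)))) (O (M.a (M.s (M.a e))))
    (O (M.a (M.s (M.s (M.a e))))) = true ∧
  Q M e A B O (m1 (O (M.a (M.s e))) (O (M.a (M.s (M.s e)))) (O (M.a (M.s (M.a e))))
    (O (M.a (M.s (M.s (M.a e))))))

/-- Traces of interlaced Hamilton cycles of the map without the edge of `e`. -/
def TD [Fintype D] (M : CMap D) (e : D) (A B : D → Prop) (O : D → Bool) : Prop :=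
  Out M e O ∧
  adm3 (O (M.a (M.s e))) (O (M.a (M.s (M.s e)))) (O (M.a (M.s (M.a e))))
    (O (M.a (M.s (M.s (M.a e))))) = true ∧
  Q M e A B O (m3 (O (M.a (M.s e))) (O (M.a (M.s (M.s e)))) (O (M.a (M.s (M.a e))))
    (O (M.a (M.s (M.s (M.a e))))))

theorem C0_congr [Fintype D] (M : CMap D) (e : D) {O O' K K' : D → Bool}
    (hO : ∀ d, ¬ Six M e d → O d = O' d) (hK : ∀ d, ¬ Six M e d → K d = K' d) :
    C0 M e O K = C0 M e O' K' := by
  classical
  unfold C0
  refine Finset.sum_congr rfl fun d _ => ?_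
  split_ifs with h
  · rfl
  · rw [not_or] at h
    rw [hO d h.1, hK d h.1, hK _ h.2]

/-- Two ends of the edge in the extension of a trace. -/
theorem one_bits : ∀ u p q : Bool, One u p q ↔ ((p || q) = true ∧ u = !(p && q)) := by
  unfold Pool.Agent.Helper17.CT.One; decide

theorem one_rot {p q r : Bool} : One p q r ↔ One q r p := by
  revert p q r; unfold Pool.Agent.Helper17.CT.One; decide

/-- `J` is constant on the outer darts but not constant: then the ends of the edge are seen. -/
theorem F1_pos : ∀ p q r t c jx jy : Bool, adm1 p q r t = true → (jx ≠ c ∨ jy ≠ c) →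
    1 ≤ F1 p q r t c c c c jx jy := by
  unfold adm1 F1; decide

section
variable [Fintype D] {M : CMap D} {e : D} (g : Gad M e) {A B : D → Prop}
  (hA : ∀ d, Six M e d → ¬ A d) (hB : ∀ d, Six M e d → ¬ B d)

include g hA hB

theorem ham_to_trace {U : D → Bool} (hU : M.IsHam U ∧ Intl M A B U) (O : D → Bool)
    (hO : ∀ d, ¬ Six M e d → O d = U d) (hO6 : ∀ d, Six M e d → O d = false) :
    TM M e A B O := by
  classical
  obtain ⟨h1, h2, h3, h4⟩ := (ham_intl_iff M A B U).1 hU
  have o1 : O (M.a (M.s e)) = U (M.a (M.s e)) := hO _ g.x1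
  have o2 : O (M.a (M.s (M.s e))) = U (M.a (M.s (M.s e))) := hO _ g.x2
  have o3 : O (M.a (M.s (M.a e))) = U (M.a (M.s (M.a e))) := hO _ g.y1
  have o4 : O (M.a (M.s (M.s (M.a e)))) = U (M.a (M.s (M.s (M.a e)))) := hO _ g.y2
  have q1 := h2 e
  have q2 := h2 (M.a e)
  rw [← h1 (M.s e), ← h1 (M.s (M.s e)), one_bits] at q1
  rw [← h1 (M.s (M.a e)), ← h1 (M.s (M.s (M.a e))), one_bits, h1 e] at q2
  have hadm : adm1 (O (M.a (M.s e))) (O (M.a (M.s (M.s e)))) (O (M.a (M.s (M.a e))))
      (O (M.a (M.s (M.s (M.a e))))) = true := by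
    rw [o1, o2, o3, o4]
    obtain ⟨q1, q1'⟩ := q1
    obtain ⟨q2, q2'⟩ := q2
    rw [q1'] at q2'
    unfold adm1
    rw [q1, q2]
    revert q2'
    generalize (U (M.a (M.s e)) && U (M.a (M.s (M.s e)))) = b1
    generalize (U (M.a (M.s (M.a e))) && U (M.a (M.s (M.s (M.a e))))) = b2
    revert b1 b2; decide
  have main : ∀ K : D → Bool, VO M e K → ∃ J : D → Bool, M.VSet J ∧
      (∀ d, ¬ Six M e d → J d = K d) ∧
      cut M U J = C0 M e O K + m1 (O (M.a (M.s e))) (O (M.a (M.s (M.s e))))
        (O (M.a (M.s (M.a e)))) (O (M.a (M.s (M.s (M.a e))))) (K (M.a (M.s e)))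
        (K (M.a (M.s (M.s e)))) (K (M.a (M.s (M.a e)))) (K (M.a (M.s (M.s (M.a e))))) := by
    intro K hK
    obtain ⟨jx, jy, hj⟩ := m1_att (O (M.a (M.s e))) (O (M.a (M.s (M.s e))))
        (O (M.a (M.s (M.a e)))) (O (M.a (M.s (M.s (M.a e))))) (K (M.a (M.s e)))
        (K (M.a (M.s (M.s e)))) (K (M.a (M.s (M.a e)))) (K (M.a (M.s (M.s (M.a e)))))
    have h := g.dist
    set J : D → Bool := fun d => if Six M e d then
      (if d = e ∨ d = M.s e ∨ d = M.s (M.s e) then jx else jy) else K d with hJ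
    have six0 : Six M e e := Or.inl rfl
    have six1 : Six M e (M.s e) := Or.inr (Or.inl rfl)
    have six2 : Six M e (M.s (M.s e)) := Or.inr (Or.inr (Or.inl rfl))
    have six3 : Six M e (M.a e) := Or.inr (Or.inr (Or.inr (Or.inl rfl)))
    have six4 : Six M e (M.s (M.a e)) := Or.inr (Or.inr (Or.inr (Or.inr (Or.inl rfl))))
    have six5 : Six M e (M.s (M.s (M.a e))) := Or.inr (Or.inr (Or.inr (Or.inr (Or.inr rfl))))
    have J0 : J e = jx := by simp [hJ, six0]
    have J1 : J (M.s e) = jx := by simp [hJ, six1]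
    have J2 : J (M.s (M.s e)) = jx := by simp [hJ, six2]
    have J3 : J (M.a e) = jy := by simp [hJ, six3, h.h03.symm, h.h13.symm, h.h23.symm]
    have J4 : J (M.s (M.a e)) = jy := by
      simp [hJ, six4, h.h04.symm, h.h14.symm, h.h24.symm]
    have J5 : J (M.s (M.s (M.a e))) = jy := by
      simp [hJ, six5, h.h05.symm, h.h15.symm, h.h25.symm]
    have Jo : ∀ d, ¬ Six M e d → J d = K d := fun d hd => by simp [hJ, hd]
    have hV : M.VSet J := by
      intro d
      by_cases hd : Six M e d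
      · rcases hd with h' | h' | h' | h' | h' | h' <;> rw [h'] <;>
          simp only [M.s3, J0, J1, J2, J3, J4, J5]
      · rw [Jo _ (by rwa [six_s]), Jo _ hd, hK d hd]
    refine ⟨J, hV, Jo, ?_⟩
    rw [cut_map g U J hV h1 q1.2, Jo _ g.x1, Jo _ g.x2, Jo _ g.y1, Jo _ g.y2, J0, J3,
      C0_congr M e hO (fun d hd => (Jo d hd).symm), ← hj, o1, o2, o3, o4]
  refine ⟨⟨hO6, fun d hd hd' => by rw [hO d hd, hO _ hd', h1], fun d hd => ?_⟩, hadm, ?_, ?_⟩
  · rw [hO d hd, hO _ (by rwa [six_s]), hO _ (by rwa [six_s, six_s])]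
    exact h2 d
  · rintro K hK ⟨d1, hd1, k1⟩ ⟨d0, hd0, k0⟩
    obtain ⟨J, hV, Jo, hc⟩ := main K hK
    rw [← hc]
    exact h3 J hV ⟨⟨d1, by rw [Jo _ hd1, k1]⟩, d0, by rw [Jo _ hd0, k0]⟩
  · intro K hK kA kB
    obtain ⟨J, hV, Jo, hc⟩ := main K hK
    rw [← hc]
    exact h4 J hV (fun d hd => by rw [Jo _ (fun q => hA d q hd), kA d hd])
      (fun d hd => by rw [Jo _ (fun q => hB d q hd), kB d hd])

open Classical in
/-- The extension of a trace. -/
noncomputable def ext (M : CMap D) (e : D) (O : D → Bool) : D → Bool := fun d =>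
  if Six M e d then (if d = e ∨ d = M.a e then !(O (M.a (M.s e)) && O (M.a (M.s (M.s e))))
    else O (M.a d)) else O d

omit [Fintype D] hA hB in
theorem ext_facts {O : D → Bool} :
    (∀ d, ¬ Six M e d → ext M e O d = O d) ∧
    ext M e O e = !(O (M.a (M.s e)) && O (M.a (M.s (M.s e)))) ∧
    ext M e O (M.a e) = !(O (M.a (M.s e)) && O (M.a (M.s (M.s e)))) ∧
    ext M e O (M.s e) = O (M.a (M.s e)) ∧
    ext M e O (M.s (M.s e)) = O (M.a (M.s (M.s e))) ∧
    ext M e O (M.s (M.a e)) = O (M.a (M.s (M.a e))) ∧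
    ext M e O (M.s (M.s (M.a e))) = O (M.a (M.s (M.s (M.a e)))) := by
  classical
  have h := g.dist
  have six0 : Six M e e := Or.inl rfl
  have six1 : Six M e (M.s e) := Or.inr (Or.inl rfl)
  have six2 : Six M e (M.s (M.s e)) := Or.inr (Or.inr (Or.inl rfl))
  have six3 : Six M e (M.a e) := Or.inr (Or.inr (Or.inr (Or.inl rfl)))
  have six4 : Six M e (M.s (M.a e)) := Or.inr (Or.inr (Or.inr (Or.inr (Or.inl rfl))))
  have six5 : Six M e (M.s (M.s (M.a e))) := Or.inr (Or.inr (Or.inr (Or.inr (Or.inr rfl))))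
  refine ⟨fun d hd => by simp [ext, hd], by simp [ext, six0], by simp [ext, six3],
    by simp [ext, six1, h.h01.symm, h.h13], by simp [ext, six2, h.h02.symm, h.h23],
    by simp [ext, six4, h.h04.symm, h.h34.symm], by simp [ext, six5, h.h05.symm, h.h35.symm]⟩

omit hA hB in
theorem trace_to_ham {O : D → Bool} (hO : TM M e A B O) :
    M.IsHam (ext M e O) ∧ Intl M A B (ext M e O) := by
  classical
  obtain ⟨⟨n1, n2, n3⟩, hadm, q1, q2⟩ := hO
  obtain ⟨eo, e0, e3, e1, e2, e4, e5⟩ := ext_facts g (O := O)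
  rw [ham_intl_iff]
  have hacl : ∀ d, ext M e O (M.a d) = ext M e O d := by
    intro d
    by_cases hd : Six M e d
    · rcases hd with h' | h' | h' | h' | h' | h' <;> rw [h']
      · rw [e0, e3]
      · rw [e1, eo _ g.x1]
      · rw [e2, eo _ g.x2]
      · rw [M.a2, e0, e3]
      · rw [e4, eo _ g.y1]
      · rw [e5, eo _ g.y2]
    · rcases port_cases d hd with h' | h' | h' | h' | ⟨h', _, _, _, _⟩
      · rw [h', M.a2, e1, eo _ g.x1]
      · rw [h', M.a2, e2, eo _ g.x2]
      · rw [h', M.a2, e4, eo _ g.y1]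
      · rw [h', M.a2, e5, eo _ g.y2]
      · rw [eo _ h', eo _ hd, n2 d hd h']
  have hx : One (ext M e O e) (ext M e O (M.s e)) (ext M e O (M.s (M.s e))) := by
    rw [e0, e1, e2, one_bits]
    refine ⟨?_, rfl⟩
    revert hadm
    unfold adm1
    generalize (O (M.a (M.s e)) || O (M.a (M.s (M.s e)))) = b1
    cases b1 <;> simp
  have hy : One (ext M e O (M.a e)) (ext M e O (M.s (M.a e))) (ext M e O (M.s (M.s (M.a e)))) := by
    rw [e3, e4, e5, one_bits]
    revert hadm
    unfold adm1
    generalize O (M.a (M.s e)) = p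
    generalize O (M.a (M.s (M.s e))) = q
    generalize O (M.a (M.s (M.a e))) = r
    generalize O (M.a (M.s (M.s (M.a e)))) = t
    revert p q r t; decide
  have hone : ∀ d, One (ext M e O d) (ext M e O (M.s d)) (ext M e O (M.s (M.s d))) := by
    intro d
    by_cases hd : Six M e d
    · rcases hd with h' | h' | h' | h' | h' | h' <;> rw [h']
      · exact hx
      · rw [M.s3]; exact one_rot.1 hx
      · rw [M.s3]; exact one_rot.1 (one_rot.1 hx)
      · exact hy
      · rw [M.s3]; exact one_rot.1 hy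
      · rw [M.s3]; exact one_rot.1 (one_rot.1 hy)
    · rw [eo _ hd, eo _ (by rwa [six_s]), eo _ (by rwa [six_s, six_s])]
      exact n3 d hd
  have hcut : ∀ J : D → Bool, M.VSet J → cut M (ext M e O) J = C0 M e O J +
      F1 (O (M.a (M.s e))) (O (M.a (M.s (M.s e)))) (O (M.a (M.s (M.a e))))
      (O (M.a (M.s (M.s (M.a e))))) (J (M.a (M.s e))) (J (M.a (M.s (M.s e))))
      (J (M.a (M.s (M.a e)))) (J (M.a (M.s (M.s (M.a e))))) (J e) (J (M.a e)) := by
    intro J hJ
    rw [cut_map g _ J hJ hacl (by rw [e0, eo _ g.x1, eo _ g.x2]), eo _ g.x1, eo _ g.x2,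
      eo _ g.y1, eo _ g.y2, C0_congr M e eo (fun d _ => rfl)]
  refine ⟨hacl, hone, ?_, ?_⟩
  · rintro J hJ ⟨⟨d1, j1⟩, d0, j0⟩
    rw [hcut J hJ]
    by_cases ht : ∃ d, ¬ Six M e d ∧ J d = true
    · by_cases hf : ∃ d, ¬ Six M e d ∧ J d = false
      · refine le_trans (q1 J (fun d _ => hJ d) ht hf) ?_
        exact Nat.add_le_add_left (m1_le _ _ _ _ _ _ _ _ _ _) _
      · -- all outer darts are in `J`
        push Not at hf
        have hc : ∀ d, ¬ Six M e d → J d = true := fun d hd => by simpa using hf d hd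
        refine le_trans ?_ (Nat.le_add_left _ _)
        rw [hc _ g.x1, hc _ g.x2, hc _ g.y1, hc _ g.y2]
        refine F1_pos _ _ _ _ true _ _ hadm ?_
        by_contra hno
        rw [not_or, not_ne_iff, not_ne_iff] at hno
        have h6 : ∀ d, Six M e d → J d = true := by
          rintro d (h' | h' | h' | h' | h' | h') <;> rw [h']
          · exact hno.1
          · rw [hJ]; exact hno.1
          · rw [hJ, hJ]; exact hno.1
          · exact hno.2
          · rw [hJ]; exact hno.2
          · rw [hJ, hJ]; exact hno.2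
        by_cases hd : Six M e d0
        · rw [h6 d0 hd] at j0; exact Bool.noConfusion j0
        · rw [hc d0 hd] at j0; exact Bool.noConfusion j0
    · push Not at ht
      have hc : ∀ d, ¬ Six M e d → J d = false := fun d hd => by simpa using ht d hd
      refine le_trans ?_ (Nat.le_add_left _ _)
      rw [hc _ g.x1, hc _ g.x2, hc _ g.y1, hc _ g.y2]
      refine F1_pos _ _ _ _ false _ _ hadm ?_
      by_contra hno
      rw [not_or, not_ne_iff, not_ne_iff] at hno
      have h6 : ∀ d, Six M e d → J d = false := by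
        rintro d (h' | h' | h' | h' | h' | h') <;> rw [h']
        · exact hno.1
        · rw [hJ]; exact hno.1
        · rw [hJ, hJ]; exact hno.1
        · exact hno.2
        · rw [hJ]; exact hno.2
        · rw [hJ, hJ]; exact hno.2
      by_cases hd : Six M e d1
      · rw [h6 d1 hd] at j1; exact Bool.noConfusion j1
      · rw [hc d1 hd] at j1; exact Bool.noConfusion j1
  · intro J hJ jA jB
    rw [hcut J hJ]
    refine le_trans (q2 J (fun d _ => hJ d) jA jB) ?_
    exact Nat.add_le_add_left (m1_le _ _ _ _ _ _ _ _ _ _) _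

/-- Interlaced Hamilton cycles of the map correspond to their traces. -/
theorem card_map : NAB M A B = Nat.card {O : D → Bool // TM M e A B O} := by
  classical
  unfold NAB
  refine Nat.card_congr
    { toFun := fun U => ⟨fun d => if Six M e d then false else U.1 d,
        ham_to_trace g hA hB U.2 _ (fun d hd => by simp [hd]) (fun d hd => by simp [hd])⟩
      invFun := fun O => ⟨ext M e O.1, trace_to_ham g O.2⟩
      left_inv := ?_
      right_inv := ?_ }
  · rintro ⟨U, hU⟩
    apply Subtype.ext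
    change ext M e (fun d => if Six M e d then false else U d) = U
    funext d
    obtain ⟨eo, e0, e3, e1, e2, e4, e5⟩ := ext_facts g (O := fun d => if Six M e d then false
      else U d)
    have h1 := hU.1.acl
    have h2 := hU.1.one e
    rw [one_bits, ← h1 (M.s e), ← h1 (M.s (M.s e))] at h2
    by_cases hd : Six M e d
    · rcases hd with h' | h' | h' | h' | h' | h' <;> rw [h']
      · rw [e0, if_neg g.x1, if_neg g.x2, h2.2]
      · rw [e1, if_neg g.x1, h1]
      · rw [e2, if_neg g.x2, h1]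
      · rw [e3, if_neg g.x1, if_neg g.x2, h1 e, h2.2]
      · rw [e4, if_neg g.y1, h1]
      · rw [e5, if_neg g.y2, h1]
    · rw [eo d hd, if_neg hd]
  · rintro ⟨O, hO⟩
    apply Subtype.ext
    change (fun d => if Six M e d then false else ext M e O d) = O
    funext d
    by_cases hd : Six M e d
    · simp [hd, hO.1.1 d hd]
    · simp [hd, (ext_facts g (O := O)).1 d hd]

theorem del_iff (O : D → Bool) (hO6 : ∀ d, Six M e d → O d = false) :
    ((del M e g).IsHam (fun d => O d.1) ∧
      Intl (del M e g) (fun d => A d.1) (fun d => B d.1) (fun d => O d.1)) ↔ TD M e A B O := by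
  classical
  rw [ham_intl_iff]
  have hcl : (∀ d : {d : D // ¬ Six M e d}, O ((del M e g).a d).1 = O d.1) ↔
      (∀ d, ¬ Six M e d → ¬ Six M e (M.a d) → O (M.a d) = O d) ∧
      adm3 (O (M.a (M.s e))) (O (M.a (M.s (M.s e)))) (O (M.a (M.s (M.a e))))
        (O (M.a (M.s (M.s (M.a e))))) = true := by
    have six1 : Six M e (M.s e) := Or.inr (Or.inl rfl)
    have six2 : Six M e (M.s (M.s e)) := Or.inr (Or.inr (Or.inl rfl))
    have six4 : Six M e (M.s (M.a e)) := Or.inr (Or.inr (Or.inr (Or.inr (Or.inl rfl))))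
    have six5 : Six M e (M.s (M.s (M.a e))) := Or.inr (Or.inr (Or.inr (Or.inr (Or.inr rfl))))
    constructor
    · intro h
      refine ⟨fun d hd hd' => ?_, ?_⟩
      · rcases port_cases d hd with q | q | q | q | ⟨_, q1, q2, q3, q4⟩
        · exact absurd (by rw [q, M.a2]; exact six1) hd'
        · exact absurd (by rw [q, M.a2]; exact six2) hd'
        · exact absurd (by rw [q, M.a2]; exact six4) hd'
        · exact absurd (by rw [q, M.a2]; exact six5) hd'
        · have := h ⟨d, hd⟩
          change O (fa M e d) = O d at this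
          rwa [fa_out q1 q2 q3 q4] at this
      · have h1 := h ⟨_, g.x1⟩
        have h2 := h ⟨_, g.y1⟩
        change O (fa M e (M.a (M.s e))) = O (M.a (M.s e)) at h1
        change O (fa M e (M.a (M.s (M.a e)))) = O (M.a (M.s (M.a e))) at h2
        rw [fa_x1] at h1
        rw [fa_y1 g] at h2
        rw [h1, h2]
        simp [adm3]
    · rintro ⟨h, hadm⟩ ⟨d, hd⟩
      simp only [adm3, Bool.and_eq_true, beq_iff_eq] at hadm
      change O (fa M e d) = O d
      rcases port_cases d hd with q | q | q | q | ⟨q, q1, q2, q3, q4⟩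
      · rw [q, fa_x1, hadm.1]
      · rw [q, fa_x2 g, hadm.1]
      · rw [q, fa_y1 g, hadm.2]
      · rw [q, fa_y2 g, hadm.2]
      · rw [fa_out q1 q2 q3 q4, h d hd q]
  have hone : (∀ d : {d : D // ¬ Six M e d}, Pool.Agent.Helper17.CT.One (O d.1)
      (O ((del M e g).s d).1) (O ((del M e g).s ((del M e g).s d)).1)) ↔
      ∀ d, ¬ Six M e d → Pool.Agent.Helper17.CT.One (O d) (O (M.s d)) (O (M.s (M.s d))) :=
    ⟨fun h d hd => h ⟨d, hd⟩, fun h d => h d.1 d.2⟩
  rw [hcl, hone]
  unfold TD Out Q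
  have hval : ∀ J : {d : D // ¬ Six M e d} → Bool, ∃ K : D → Bool,
      J = (fun d => K d.1) := by
    intro J
    refine ⟨fun d => if h : Six M e d then false else J ⟨d, h⟩, ?_⟩
    funext d
    simp [d.2]
  constructor
  · rintro ⟨⟨c1, c2⟩, c3, c4, c5⟩
    refine ⟨⟨hO6, c1, c3⟩, c2, ?_, ?_⟩
    · rintro K hK ⟨d1, hd1, k1⟩ ⟨d0, hd0, k0⟩
      rw [← cut_del g O K]
      exact c4 (fun d => K d.1) (fun d => hK d.1 d.2) ⟨⟨⟨d1, hd1⟩, k1⟩, ⟨d0, hd0⟩, k0⟩
    · intro K hK kA kB
      rw [← cut_del g O K]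
      exact c5 (fun d => K d.1) (fun d => hK d.1 d.2) (fun d hd => kA d.1 hd)
        (fun d hd => kB d.1 hd)
  · rintro ⟨⟨_, c1, c3⟩, c2, c4, c5⟩
    refine ⟨⟨c1, c2⟩, c3, ?_, ?_⟩
    · rintro J hJ ⟨⟨d1, j1⟩, d0, j0⟩
      obtain ⟨K, rfl⟩ := hval J
      rw [cut_del g O K]
      exact c4 K (fun d hd => hJ ⟨d, hd⟩) ⟨d1.1, d1.2, j1⟩ ⟨d0.1, d0.2, j0⟩
    · intro J hJ jA jB
      obtain ⟨K, rfl⟩ := hval J
      have k1 : ∀ d, A d → K d = false := fun d hd => jA ⟨d, fun q => hA d q hd⟩ hd
      have k2 : ∀ d, B d → K d = true := fun d hd => jB ⟨d, fun q => hB d q hd⟩ hd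
      rw [cut_del g O K]
      exact c5 K (fun d hd => hJ ⟨d, hd⟩) k1 k2

/-- Interlaced Hamilton cycles of the map without the edge of `e` correspond to their traces. -/
theorem card_del : NAB (del M e g) (fun d => A d.1) (fun d => B d.1) =
    Nat.card {O : D → Bool // TD M e A B O} := by
  classical
  unfold NAB
  refine Nat.card_congr
    { toFun := fun U => ⟨fun d => if h : Six M e d then false else U.1 ⟨d, h⟩,
        (del_iff g hA hB _ (fun d hd => by simp [hd])).1 (by
          have : (fun d : {d : D // ¬ Six M e d} =>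
              (fun d => if h : Six M e d then false else U.1 ⟨d, h⟩) d.1) = U.1 := by
            funext d; simp [d.2]
          rw [this]
          exact U.2)⟩
      invFun := fun O => ⟨fun d => O.1 d.1, (del_iff g hA hB O.1 O.2.1.1).2 O.2⟩
      left_inv := ?_
      right_inv := ?_ }
  · rintro ⟨U, hU⟩
    apply Subtype.ext
    funext d
    simp [d.2]
  · rintro ⟨O, hO⟩
    apply Subtype.ext
    funext d
    by_cases hd : Six M e d
    · simp [hd, hO.1.1 d hd]
    · simp [hd]

end

end Pool.Agent.Helper92.CA
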