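import Pool.Agent.Helper66.CA.FaceOps

set_option autoImplicit false

/-!
Project Cantoni (MP_16e137_co): the face of `v` after the deletion of the edge of `f (a t)`, when
`t` is the only one of the six darts on the face of `v`.
-/

namespace Pool.Agent.Helper92.CA
open Pool.Agent.Helper17.CT Pool.Agent.Helper66.CA Function

variable {D : Type} (M : CMap D)

theorem e_eq (t : D) : M.f (M.a t) = M.s t := by simp [CMap.f, M.a2]

theorem sse_eq (t : D) : M.s (M.s (M.f (M.a t))) = t := by rw [e_eq, M.s3]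

/-- Step of the face permutation after the deletion, away from `t`. -/
theorem step_tri {t : D} (g : Gad M (M.f (M.a t))) (v : D)
    (hv : ∀ d, Six M (M.f (M.a t)) d → M.Face v d → d = t) {x : D} (hx : M.Face v x)
    (hft : M.f x ≠ t) (h0 : ¬ Six M (M.f (M.a t)) x) :
    ((del M (M.f (M.a t)) g).f ⟨x, h0⟩).1 = M.f x := by
  have h1 : ¬ Six M (M.f (M.a t)) (M.a x) := by
    intro h
    have h1 : Six M (M.f (M.a t)) (M.s (M.a x)) := six_s.2 h
    exact hft (hv _ h1 (face_trans M hx ⟨1, rfl⟩))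
  change M.s (fa M (M.f (M.a t)) x) = M.s (M.a x)
  congr 1
  refine fa_out (fun q => h1 ?_) (fun q => h1 ?_) (fun q => h1 ?_) (fun q => h1 ?_)
  · rw [q, M.a2]; exact Or.inr (Or.inl rfl)
  · rw [q, M.a2]; exact Or.inr (Or.inr (Or.inl rfl))
  · rw [q, M.a2]; exact Or.inr (Or.inr (Or.inr (Or.inr (Or.inl rfl))))
  · rw [q, M.a2]; exact Or.inr (Or.inr (Or.inr (Or.inr (Or.inr rfl))))

/-- Step of the face permutation after the deletion, at the dart before `t`. -/
theorem step_tri' {t : D} (g : Gad M (M.f (M.a t))) {x : D}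
    (hft : M.f x = t) (h0 : ¬ Six M (M.f (M.a t)) x) :
    ((del M (M.f (M.a t)) g).f ⟨x, h0⟩).1 = M.f t := by
  have h1 : M.a x = M.s (M.f (M.a t)) := by
    have h2 : M.s (M.a x) = M.s (M.s (M.f (M.a t))) := by
      rw [sse_eq]; exact hft
    exact s_inj M h2
  have h3 : x = M.a (M.s (M.f (M.a t))) := by rw [← h1, M.a2]
  change M.s (fa M (M.f (M.a t)) x) = M.s (M.a t)
  rw [h3, fa_x1, sse_eq]

variable [Finite D]

/-- The face of `v` after the deletion. -/
theorem tri_face {t : D} (g : Gad M (M.f (M.a t))) (v : D) (htv : M.Face v t)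
    (hv : ∀ d, Six M (M.f (M.a t)) d → M.Face v d → d = t) (hk : 3 ≤ minimalPeriod M.f v)
    (h1 : ¬ Six M (M.f (M.a t)) (M.f t)) :
    (∀ x : {d : D // ¬ Six M (M.f (M.a t)) d},
      (del M (M.f (M.a t)) g).Face ⟨M.f t, h1⟩ x ↔ M.Face v x.1) ∧
    minimalPeriod (del M (M.f (M.a t)) g).f ⟨M.f t, h1⟩ < minimalPeriod M.f v := by
  have hper : minimalPeriod M.f t = minimalPeriod M.f v := by
    obtain ⟨n, rfl⟩ := htv
    exact minimalPeriod_apply_iterate ((ct10_f_inj M).mem_periodicPts v) n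
  set k := minimalPeriod M.f v with hkdef
  have hsixt : Six M (M.f (M.a t)) t := Or.inr (Or.inr (Or.inl (sse_eq M t).symm))
  have hne : ∀ j, 0 < j → j < k → (M.f)^[j] t ≠ t := by
    intro j hj hjk q
    have h2 : IsPeriodicPt M.f j t := q
    have h3 := h2.minimalPeriod_le hj
    rw [hper] at h3
    omega
  have hface : ∀ j, M.Face v ((M.f)^[j] t) := fun j => face_trans M htv ⟨j, rfl⟩
  have hns : ∀ j, 0 < j → j < k → ¬ Six M (M.f (M.a t)) ((M.f)^[j] t) := fun j hj hjk h =>
    hne j hj hjk (hv _ h (hface j))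
  have hit : ∀ n, n + 1 < k →
      (((del M (M.f (M.a t)) g).f)^[n] ⟨M.f t, h1⟩).1 = (M.f)^[n + 1] t := by
    intro n
    induction n with
    | zero => intro _; rfl
    | succ n ih =>
      intro hn
      have h2 := ih (by omega)
      rw [iterate_succ_apply', iterate_succ_apply' (M.f) (n + 1)]
      have h3 : ¬ Six M (M.f (M.a t)) ((M.f)^[n + 1] t) := hns _ (by omega) (by omega)
      have h4 : ((del M (M.f (M.a t)) g).f)^[n] ⟨M.f t, h1⟩ = ⟨(M.f)^[n + 1] t, h3⟩ :=
        Subtype.ext h2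
      rw [h4]
      refine step_tri M g v hv (hface _) ?_ h3
      rw [← iterate_succ_apply' (M.f) (n + 1)]
      exact hne _ (by omega) hn
  have hlast : ((del M (M.f (M.a t)) g).f)^[k - 1] ⟨M.f t, h1⟩ = ⟨M.f t, h1⟩ := by
    obtain ⟨m, hm⟩ : ∃ m, k - 1 = m + 1 := ⟨k - 2, by omega⟩
    rw [hm, iterate_succ_apply']
    have h3 : ¬ Six M (M.f (M.a t)) ((M.f)^[m + 1] t) := hns _ (by omega) (by omega)
    have h4 : ((del M (M.f (M.a t)) g).f)^[m] ⟨M.f t, h1⟩ = ⟨(M.f)^[m + 1] t, h3⟩ :=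
      Subtype.ext (hit m (by omega))
    rw [h4]
    apply Subtype.ext
    refine step_tri' M g ?_ h3
    rw [← iterate_succ_apply' (M.f) (m + 1), show (m + 1).succ = k by omega, ← hper]
    exact isPeriodicPt_minimalPeriod M.f t
  refine ⟨fun x => ⟨?_, ?_⟩, ?_⟩
  · rintro ⟨n, hn⟩
    -- reduce `n` modulo `k - 1`
    have h5 : ((del M (M.f (M.a t)) g).f)^[n % (k - 1)] ⟨M.f t, h1⟩ = x := by
      have h6 : IsPeriodicPt (del M (M.f (M.a t)) g).f (k - 1) ⟨M.f t, h1⟩ := hlast
      rw [← hn]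
      exact h6.iterate_mod_apply n
    have h7 : n % (k - 1) < k - 1 := Nat.mod_lt _ (by omega)
    rw [← h5, hit _ (by omega)]
    exact hface _
  · intro hx
    have hx' : M.Face t x.1 := face_trans M (face_symm M htv) hx
    obtain ⟨n, hn⟩ := hx'
    have h5 : (M.f)^[n % k] t = x.1 := by
      rw [← hn, ← hper]
      exact iterate_mod_minimalPeriod_eq
    have h6 : n % k ≠ 0 := by
      intro q
      rw [q] at h5
      exact x.2 (by rw [← h5]; exact hsixt)
    have h7 : n % k < k := Nat.mod_lt _ (by omega)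
    obtain ⟨m, hm⟩ := Nat.exists_eq_succ_of_ne_zero h6
    refine ⟨m, Subtype.ext ?_⟩
    rw [hit m (by omega), ← h5, hm]
  · have h8 := IsPeriodicPt.minimalPeriod_le (f := (del M (M.f (M.a t)) g).f)
      (show 0 < k - 1 by omega) hlast
    omega

end Pool.Agent.Helper92.CA
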